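import Pool.Agent.Helper70.EQ.Goals

/-! Packet EQ-SR: Stirling numbers. -/

namespace Pool.Agent.Helper64.EQ.SR

open Finset Pool.Agent.Helper70.EQ

lemma sj_zero_zero : sj 0 0 = 1 := by simp [sj]

lemma sj_zero_succ (M : ℕ) : sj 0 (M + 1) = 0 := by simp [sj]

lemma sj_succ_zero (r : ℕ) : sj (r + 1) 0 = 0 := by
  have h := add_pow (1 : ℝ) (-1) (r + 1)
  rw [show (1 : ℝ) + -1 = 0 by ring, zero_pow (Nat.succ_ne_zero r)] at h
  unfold sj
  rw [h]
  apply Finset.sum_congr rfl
  intro j _
  rw [one_pow, pow_zero]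
  ring

lemma key (r j : ℕ) : ((r + 1).choose j : ℝ) * j = (r + 1) * (((r + 1).choose j : ℝ) - (r.choose j : ℝ)) := by
  cases j with
  | zero => simp
  | succ i =>
    have h1 : ((r : ℝ) + 1) * (r.choose i : ℝ) = ((r + 1).choose (i + 1) : ℝ) * ((i : ℝ) + 1) := by
      have := Nat.add_one_mul_choose_eq r i
      exact_mod_cast this
    have h2 : ((r + 1).choose (i + 1) : ℝ) = (r.choose i : ℝ) + (r.choose (i + 1) : ℝ) := by
      exact_mod_cast Nat.choose_succ_succ r i
    push_cast
    rw [← h1]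
    rw [h2]
    ring

lemma sj_ext (r M : ℕ) : sj r M =
    ∑ j ∈ Finset.range (r + 2), -((-1) ^ (r + 1 - j) * (r.choose j : ℝ) * (j : ℝ) ^ M) := by
  rw [Finset.sum_range_succ _ (r + 1), Nat.choose_succ_self]
  unfold sj
  simp only [Nat.cast_zero, mul_zero, zero_mul, neg_zero, add_zero]
  apply Finset.sum_congr rfl
  intro j hj
  have hj' : j ≤ r := Nat.lt_succ_iff.1 (Finset.mem_range.1 hj)
  rw [Nat.succ_sub hj', pow_succ]
  ring

lemma sj_succ_succ (r M : ℕ) : sj (r + 1) (M + 1) = ((r : ℝ) + 1) * (sj (r + 1) M + sj r M) := by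
  rw [sj_ext r M]
  unfold sj
  rw [← Finset.sum_add_distrib, Finset.mul_sum]
  apply Finset.sum_congr rfl
  intro j _
  have h := key r j
  rw [pow_succ]
  linear_combination ((-1 : ℝ) ^ (r + 1 - j) * (j : ℝ) ^ M) * h

lemma sj_eq (M : ℕ) : ∀ r : ℕ, sj r M = (r.factorial : ℝ) * (Nat.stirlingSecond M r : ℝ) := by
  induction M with
  | zero =>
    intro r
    cases r with
    | zero => simp [sj_zero_zero]
    | succ r => simp [sj_succ_zero]
  | succ M ih =>
    intro r
    cases r with
    | zero => simp [sj_zero_succ]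
    | succ r =>
      rw [sj_succ_succ, ih, ih, Nat.stirlingSecond_succ_succ, Nat.factorial_succ]
      push_cast
      ring

lemma sj_nonneg (r M : ℕ) : 0 ≤ sj r M := by
  rw [sj_eq]; positivity

/-- inversion -/
lemma inv (r M : ℕ) : ∑ s ∈ Finset.range (r + 1), (r.choose s : ℝ) * sj s M = (r : ℝ) ^ M := by
  induction M with
  | zero =>
    rw [Finset.sum_range_succ']
    simp [sj_succ_zero, sj_zero_zero]
  | succ M ih =>
    rw [Finset.sum_range_succ', sj_zero_succ, mul_zero, add_zero]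
    have h1 : ∀ s ∈ Finset.range r, (r.choose (s + 1) : ℝ) * sj (s + 1) (M + 1) =
        (r.choose (s + 1) : ℝ) * (((s + 1 : ℕ) : ℝ) * sj (s + 1) M) +
          ((r : ℝ) - s) * ((r.choose s : ℝ) * sj s M) := by
      intro s hs
      have hs' : s < r := Finset.mem_range.1 hs
      have h2 : (r.choose (s + 1) : ℝ) * ((s : ℝ) + 1) = (r.choose s : ℝ) * ((r : ℝ) - s) := by
        have := Nat.choose_succ_right_eq r s
        rw [← Nat.cast_sub hs'.le]
        exact_mod_cast this
      rw [sj_succ_succ]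
      push_cast
      linear_combination (sj s M) * h2
    rw [Finset.sum_congr rfl h1, Finset.sum_add_distrib]
    have h3 : ∑ s ∈ Finset.range r, (r.choose (s + 1) : ℝ) * (((s + 1 : ℕ) : ℝ) * sj (s + 1) M) =
        ∑ s ∈ Finset.range (r + 1), (s : ℝ) * ((r.choose s : ℝ) * sj s M) := by
      rw [Finset.sum_range_succ' _ r]
      simp only [Nat.cast_zero, zero_mul, add_zero]
      apply Finset.sum_congr rfl
      intro s _
      ring
    have h4 : ∑ s ∈ Finset.range r, ((r : ℝ) - s) * ((r.choose s : ℝ) * sj s M) =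
        ∑ s ∈ Finset.range (r + 1), ((r : ℝ) - s) * ((r.choose s : ℝ) * sj s M) := by
      rw [Finset.sum_range_succ _ r]
      simp
    rw [h3, h4, ← Finset.sum_add_distrib, pow_succ, ← ih, Finset.sum_mul]
    apply Finset.sum_congr rfl
    intro s _
    ring

theorem t : G_SR := by
  intro r M
  refine ⟨sj_eq M r, ?_, ?_⟩
  · rw [← inv r M, Finset.sum_range_succ, Nat.choose_self, Nat.cast_one, one_mul]
    have : 0 ≤ ∑ s ∈ Finset.range r, (r.choose s : ℝ) * sj s M :=
      Finset.sum_nonneg fun s _ => mul_nonneg (Nat.cast_nonneg _) (sj_nonneg s M)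
    linarith
  · intro hr
    obtain ⟨q, rfl⟩ : ∃ q, r = q + 1 := ⟨r - 1, by omega⟩
    have h1 := inv (q + 1) M
    rw [Finset.sum_range_succ, Nat.choose_self, Nat.cast_one, one_mul] at h1
    have h2 := inv q M
    have h3 : ∑ s ∈ Finset.range (q + 1), ((q + 1).choose s : ℝ) * sj s M ≤
        ((q : ℝ) + 1) * ∑ s ∈ Finset.range (q + 1), (q.choose s : ℝ) * sj s M := by
      rw [Finset.mul_sum]
      apply Finset.sum_le_sum
      intro s hs
      have hs' : s ≤ q := Nat.lt_succ_iff.1 (Finset.mem_range.1 hs)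
      have h4 : ((q + 1).choose s : ℝ) ≤ ((q : ℝ) + 1) * (q.choose s : ℝ) := by
        have := Nat.choose_mul_succ_eq q s
        have h5 : (q + 1).choose s ≤ (q + 1).choose s * (q + 1 - s) :=
          Nat.le_mul_of_pos_right _ (by omega)
        rw [← this] at h5
        calc ((q + 1).choose s : ℝ) ≤ ((q.choose s * (q + 1) : ℕ) : ℝ) := by exact_mod_cast h5
          _ = _ := by push_cast; ring
      calc ((q + 1).choose s : ℝ) * sj s M ≤ (((q : ℝ) + 1) * (q.choose s : ℝ)) * sj s M :=
            mul_le_mul_of_nonneg_right h4 (sj_nonneg s M)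
        _ = _ := by ring
    rw [h2] at h3
    push_cast at h1 ⊢
    rw [show (q : ℝ) + 1 - 1 = q by ring]
    linarith

end Pool.Agent.Helper64.EQ.SR
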